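import Mathlib
import Pool.Agent.Q35.UL.Stm
import Pool.Agent.TH314.PD.LB2

/-!
# Project UL, job NB: forms without a common zero

The lemmas `top_prod`, `top_pow`, `top_eval` are copied from `Pool/Agent/Y155/LI/T1.lean`.
-/

set_option autoImplicit false

namespace Pool.Agent.Q176.UL

open MvPolynomial Pool.Agent.TH314.PD Module Pool.Agent.Q35.UL

theorem top_prod {A : Type} [CommRing A] {ι : Type} (s : Finset ι) (q : ι → Polynomial A)
    (n : ι → ℕ) (c : ι → A) (h : ∀ i ∈ s, (q i).natDegree ≤ n i ∧ (q i).coeff (n i) = c i) :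
    (∏ i ∈ s, q i).natDegree ≤ ∑ i ∈ s, n i ∧
      (∏ i ∈ s, q i).coeff (∑ i ∈ s, n i) = ∏ i ∈ s, c i := by
  classical
  induction s using Finset.induction_on with
  | empty => simp
  | insert a s ha ih =>
    obtain ⟨h1, h2⟩ := ih fun i hi => h i (Finset.mem_insert_of_mem hi)
    obtain ⟨h3, h4⟩ := h a (Finset.mem_insert_self _ _)
    rw [Finset.prod_insert ha, Finset.prod_insert ha, Finset.sum_insert ha]
    exact ⟨Polynomial.natDegree_mul_le_of_le h3 h1,
      by rw [Polynomial.coeff_mul_add_eq_of_natDegree_le h3 h1, h2, h4]⟩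

theorem top_pow {A : Type} [CommRing A] (q : Polynomial A) (c : A) (h1 : q.natDegree ≤ 1)
    (h2 : q.coeff 1 = c) (m : ℕ) : (q ^ m).natDegree ≤ m ∧ (q ^ m).coeff m = c ^ m := by
  have := top_prod (Finset.range m) (fun _ => q) (fun _ => 1) (fun _ => c) (fun _ _ => ⟨h1, h2⟩)
  simpa using this

theorem top_eval {K A : Type} [CommRing K] [CommRing A] (φ : K →+* A) {r e : ℕ}
    (G : MvPolynomial (Fin r) K) (hG : G.IsHomogeneous e) (u w : Fin r → A) :
    (eval₂ ((Polynomial.C : A →+* Polynomial A).comp φ)
      (fun j => Polynomial.X * Polynomial.C (u j) + Polynomial.C (w j)) G).natDegree ≤ e ∧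
    (eval₂ ((Polynomial.C : A →+* Polynomial A).comp φ)
      (fun j => Polynomial.X * Polynomial.C (u j) + Polynomial.C (w j)) G).coeff e =
      eval₂ φ u G := by
  rw [eval₂_eq', eval₂_eq']
  have key : ∀ m ∈ G.support, (((Polynomial.C : A →+* Polynomial A).comp φ) (coeff m G) *
      ∏ j, (Polynomial.X * Polynomial.C (u j) + Polynomial.C (w j)) ^ m j).natDegree ≤ e ∧
      (((Polynomial.C : A →+* Polynomial A).comp φ) (coeff m G) *
      ∏ j, (Polynomial.X * Polynomial.C (u j) + Polynomial.C (w j)) ^ m j).coeff e =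
      φ (coeff m G) * ∏ j, u j ^ m j := by
    intro m hm
    have hme : ∑ j, m j = e := by
      rw [← Finsupp.degree_eq_sum, Finsupp.degree_eq_weight_one]
      exact hG (mem_support_iff.1 hm)
    obtain ⟨h1, h2⟩ := top_prod Finset.univ
      (fun j => (Polynomial.X * Polynomial.C (u j) + Polynomial.C (w j)) ^ m j) (fun j => m j)
      (fun j => u j ^ m j) (fun j _ => top_pow _ _ (by compute_degree) (by simp) _)
    rw [hme] at h1 h2
    refine ⟨(Polynomial.natDegree_C_mul_le _ _).trans h1, ?_⟩
    rw [RingHom.comp_apply, Polynomial.coeff_C_mul, h2]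
  refine ⟨Polynomial.natDegree_sum_le_of_forall_le _ _ fun m hm => (key m hm).1, ?_⟩
  rw [Polynomial.finsetSum_coeff]
  exact Finset.sum_congr rfl fun m hm => (key m hm).2


theorem last_dvd {n : ℕ} (H : MvPolynomial (Fin (n + 1)) ℂ) :
    X (Fin.last n) ∣ H - rename Fin.castSucc
      (aeval (Fin.snoc (α := fun _ => MvPolynomial (Fin n) ℂ) (fun i => X i) 0) H) := by
  induction H using MvPolynomial.induction_on with
  | C a =>
    rw [aeval_C]
    have : rename Fin.castSucc (algebraMap ℂ (MvPolynomial (Fin n) ℂ) a) =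
        (C a : MvPolynomial (Fin (n + 1)) ℂ) := rename_C _ _
    rw [this, sub_self]
    exact dvd_zero _
  | add f g hf hg =>
    rw [map_add, map_add, add_sub_add_comm]
    exact dvd_add hf hg
  | mul_X f i hf =>
    rw [map_mul, map_mul, aeval_X]
    refine Fin.lastCases ?_ (fun k => ?_) i
    · rw [Fin.snoc_last, map_zero, mul_zero, sub_zero]
      exact dvd_mul_left _ _
    · rw [Fin.snoc_castSucc, rename_X, ← sub_mul]
      exact hf.mul_right _

theorem nb : S_NB := by
  classical
  intro n D d F hF hF0 hD M _ _ s hs _ G hG hFG hz hfd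
  have evc : ∀ {m m' : ℕ} (b : Fin m → ℂ) (g : Fin m' → MvPolynomial (Fin m) ℂ)
      (H : MvPolynomial (Fin m') ℂ), eval b (aeval g H) = eval (fun k => eval b (g k)) H := by
    intro m m' b g H
    induction H using MvPolynomial.induction_on with
    | C a => simp
    | add f g hf hg => rw [map_add, map_add, map_add, hf, hg]
    | mul_X f i hf => rw [map_mul, map_mul, map_mul, hf, aeval_X, eval_X]
  have avc : ∀ {m m' : ℕ} (b : Fin m → M) (g : Fin m' → MvPolynomial (Fin m) ℂ)
      (H : MvPolynomial (Fin m') ℂ), aeval b (aeval g H) = aeval (fun k => aeval b (g k)) H := by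
    intro m m' b g H
    induction H using MvPolynomial.induction_on with
    | C a => simp
    | add f g hf hg => rw [map_add, map_add, map_add, hf, hg]
    | mul_X f i hf => rw [map_mul, map_mul, map_mul, hf, aeval_X, aeval_X]
  -- the degree is positive
  have hd : 1 ≤ d := by
    by_contra hd0
    have hd1 : d = 0 := by omega
    subst hd1
    have h1 : F.totalDegree = 0 := by
      have := hF.totalDegree_le
      omega
    rw [totalDegree_eq_zero_iff_eq_C] at h1
    rw [h1, aeval_C] at hFG
    have h2 : coeff 0 F = 0 := by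
      have h3 : (C (coeff 0 F) : MvPolynomial (Fin (n + 1)) ℂ) = 0 := hFG
      rwa [C_eq_zero] at h3
    rw [h2, C_0] at h1
    exact hF0 h1
  obtain ⟨c, hc⟩ : ∃ c : Fin (n + 2) → ℂ, eval c F ≠ 0 := by
    by_contra hcon
    push Not at hcon
    exact hF0 (MvPolynomial.funext fun z => by rw [hcon, map_zero])
  obtain ⟨j, hj⟩ : ∃ j, c j ≠ 0 := by
    by_contra hcon
    push Not at hcon
    apply hc
    have h1 : c = fun i => (0 : ℂ) * (1 : Fin (n + 2) → ℂ) i := by
      funext i
      rw [hcon, zero_mul]
    have h2 : aeval (fun i => (0 : ℂ) * (1 : Fin (n + 2) → ℂ) i) F = _ := aeval_smul_form hF _ _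
    rw [zero_pow (by omega), zero_mul, ← h1, aeval_eq_eval] at h2
    exact h2
  set q : Fin (n + 2) → MvPolynomial (Fin (n + 1)) ℂ := fun k =>
    C (c j) * G k - C (c k) * G j with hq
  have hqj : q j = 0 := by
    rw [hq]
    exact sub_self _
  have hqhom : ∀ k, (q k).IsHomogeneous D := by
    intro k
    have h1 : (C (c j) * G k).IsHomogeneous (0 + D) := (isHomogeneous_C _ _).mul (hG k)
    have h2 : (C (c k) * G j).IsHomogeneous (0 + D) := (isHomogeneous_C _ _).mul (hG j)
    rw [zero_add] at h1 h2
    exact h1.sub h2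
  -- no common zero
  have hqz : ∀ b : Fin (n + 1) → ℂ, (∀ k, eval b (q k) = 0) → b = 0 := by
    intro b hb
    have h1 : ∀ k, c j * eval b (G k) = eval b (G j) * c k := by
      intro k
      have := hb k
      rw [hq] at this
      simp only [map_sub, map_mul, eval_C] at this
      linear_combination this
    have h2 : eval (fun k => c j * eval b (G k)) F = 0 := by
      have h3 : aeval (fun k => c j * eval b (G k)) F = _ := aeval_smul_form hF _ _
      rw [aeval_eq_eval, aeval_eq_eval] at h3
      have h4 : eval (fun k => eval b (G k)) F = 0 := by rw [← evc, hFG, map_zero]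
      rw [h4, mul_zero] at h3
      exact h3
    have h3 : eval (fun k => c j * eval b (G k)) F = eval b (G j) ^ d * eval c F := by
      have h4 : (fun k => c j * eval b (G k)) = fun k => eval b (G j) * c k := funext h1
      rw [h4]
      have h5 : aeval (fun k => eval b (G j) * c k) F = _ := aeval_smul_form hF _ _
      rw [aeval_eq_eval, aeval_eq_eval] at h5
      exact h5
    rw [h2] at h3
    have h4 : eval b (G j) = 0 := by
      rcases mul_eq_zero.1 h3.symm with h | h
      · exact eq_zero_of_pow_eq_zero h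
      · exact absurd h hc
    apply hz
    intro i
    have h5 := h1 i
    rw [h4, zero_mul] at h5
    exact (mul_eq_zero.1 h5).resolve_left hj
  obtain ⟨i0, hi0⟩ : ∃ i0 : Fin (n + 1), q (j.succAbove i0) ≠ 0 := by
    by_contra hcon
    push Not at hcon
    have h1 := hqz 1 (by
      intro k
      by_cases hk : k = j
      · rw [hk, hqj, map_zero]
      · obtain ⟨i, rfl⟩ := Fin.exists_succAbove_eq hk
        rw [hcon, map_zero])
    have h2 := congrFun h1 0
    exact one_ne_zero h2
  let τ : Equiv.Perm (Fin (n + 1)) := Equiv.swap 0 i0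
  set p : Fin (n + 1) → MvPolynomial (Fin (n + 2)) ℂ := fun i =>
    rename Fin.castSucc (q (j.succAbove (τ i))) with hp
  have hex : ∀ k, k ≠ j → ∃ i, j.succAbove (τ i) = k := by
    intro k hk
    obtain ⟨i, rfl⟩ := Fin.exists_succAbove_eq hk
    exact ⟨τ.symm i, by rw [Equiv.apply_symm_apply]⟩
  have hτ0 : τ 0 = i0 := Equiv.swap_apply_left _ _
  set x : Fin (n + 2) → M := Fin.snoc (α := fun _ => M) s 0 with hx
  have hxl : x (Fin.last (n + 1)) = 0 := by
    rw [hx]
    exact Fin.snoc_last (α := fun _ => M) _ _
  have hxc : x ∘ Fin.castSucc = s := by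
    funext i
    rw [hx]
    exact Fin.snoc_castSucc (α := fun _ => M) _ _ _
  have hPP : ∀ i, PP x p i = aeval s (q (j.succAbove (τ i))) := by
    intro i
    change aeval x (rename Fin.castSucc _) = _
    rw [aeval_rename, hxc]
  set P0 : M := aeval s (q (j.succAbove i0)) with hP0def
  have hP00 : PP x p 0 = P0 := by rw [hPP, hτ0]
  have hP0 : P0 ≠ 0 := fun h => hi0 (hs D _ (hqhom _) h)
  have h0 : PP x p 0 ≠ 0 := by rwa [hP00]
  have hphom : ∀ i, (p i).IsHomogeneous D := fun i => (hqhom _).rename_isHomogeneous
  have hXhom : (X (Fin.last (n + 1)) : MvPolynomial (Fin (n + 2)) ℂ).IsHomogeneous 1 :=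
    isHomogeneous_X _ _
  obtain ⟨e0, hg1, hg2⟩ := gen (X (Fin.last (n + 1))) hXhom p hphom (by
    intro z h1 h2
    rw [eval_X] at h2
    have h3 : z ∘ Fin.castSucc = 0 := by
      apply hqz
      intro k
      by_cases hk : k = j
      · rw [hk, hqj, map_zero]
      · obtain ⟨i, rfl⟩ := hex k hk
        have h4 : eval z (rename Fin.castSucc (q (j.succAbove (τ i)))) = 0 := h1 i
        rwa [eval_rename] at h4
    funext i
    refine Fin.lastCases ?_ (fun k => ?_) i
    · exact h2
    · exact congrFun h3 k)
  have hg : Gen (X (Fin.last (n + 1))) p D e0 := ⟨hg1, hg2⟩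
  have hFx : aeval x (X (Fin.last (n + 1)) : MvPolynomial (Fin (n + 2)) ℂ) = 0 := by
    rw [aeval_X, hxl]
  have hker : ∀ e (H : MvPolynomial (Fin (n + 2)) ℂ), H.IsHomogeneous e → aeval x H = 0 →
      X (Fin.last (n + 1)) ∣ H := by
    intro e H hH h
    have h1 := last_dvd H
    set H0 := aeval (Fin.snoc (α := fun _ => MvPolynomial (Fin (n + 1)) ℂ) (fun i => X i) 0) H
      with hH0
    have h2 : aeval s H0 = 0 := by
      rw [hH0, avc, ← h]
      congr 1
      congr 1
      funext k
      refine Fin.lastCases ?_ (fun i => ?_) k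
      · rw [hxl, Fin.snoc_last, map_zero]
      · rw [Fin.snoc_castSucc, aeval_X, ← hxc]
        rfl
    have h3 : H0.IsHomogeneous e := by
      have := hH.aeval (Fin.snoc (α := fun _ => MvPolynomial (Fin (n + 1)) ℂ) (fun i => X i) 0)
        (n := 1) (by
          intro k
          refine Fin.lastCases ?_ (fun i => ?_) k
          · rw [Fin.snoc_last]
            exact isHomogeneous_zero _ _ _
          · rw [Fin.snoc_castSucc]
            exact isHomogeneous_X _ _)
      rwa [one_mul] at this
    rw [hs e H0 h3 h2, map_zero, sub_zero] at h1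
    exact h1
  -- the values
  set g : Fin (n + 2) → M := fun i => aeval s (G i) with hgdef
  have hgF : aeval g F = 0 := by
    have := avc s G F
    rw [hFG, map_zero] at this
    exact this.symm
  have hqs : ∀ k, aeval s (q k) = algebraMap ℂ M (c j) * g k - algebraMap ℂ M (c k) * g j := by
    intro k
    rw [hq]
    simp only [map_sub, map_mul]
    rw [aeval_C, aeval_C]
  have hyy : ∀ k, aeval s (q k) / P0 ∈ LL x p := by
    intro k
    by_cases hk : k = j
    · rw [hk, hqj, map_zero, zero_div]
      exact zero_mem _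
    · obtain ⟨i, rfl⟩ := hex k hk
      rw [← hPP, ← hP00]
      exact IntermediateField.subset_adjoin _ _ ⟨i, rfl⟩
  set θ : M := g j / P0 with hθ
  have hcj : algebraMap ℂ M (c j) ≠ 0 := by
    rw [Ne, FaithfulSMul.algebraMap_eq_zero_iff]
    exact hj
  have hgk : ∀ k, algebraMap ℂ M (c j) * (g k / P0) =
      aeval s (q k) / P0 + algebraMap ℂ M (c k) * θ := by
    intro k
    rw [hqs, hθ]
    ring
  -- the equation for `θ`
  set v : Fin (n + 2) → LL x p := fun k => ⟨aeval s (q k) / P0, hyy k⟩ with hv
  set Q : Polynomial (LL x p) := eval₂ ((Polynomial.C : LL x p →+* _).comp (algebraMap ℂ (LL x p)))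
    (fun k => Polynomial.X * Polynomial.C (algebraMap ℂ (LL x p) (c k)) + Polynomial.C (v k)) F
    with hQ
  obtain ⟨hQd, hQc⟩ := top_eval (algebraMap ℂ (LL x p)) F hF
    (fun k => algebraMap ℂ (LL x p) (c k)) v
  have hQ0 : Q ≠ 0 := by
    intro h
    rw [← hQ, h, Polynomial.coeff_zero] at hQc
    have h1 : eval₂ (algebraMap ℂ (LL x p)) (fun k => algebraMap ℂ (LL x p) (c k)) F =
        algebraMap ℂ (LL x p) (eval c F) := by
      rw [← eval₂_id, eval₂_comp_left (algebraMap ℂ (LL x p))]
      rfl
    rw [h1] at hQc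
    apply hc
    exact (FaithfulSMul.algebraMap_eq_zero_iff ℂ (LL x p)).1 hQc.symm
  have hQθ : Polynomial.aeval θ Q = 0 := by
    have h1 : Polynomial.aeval θ Q = eval₂ (algebraMap ℂ M)
        (fun k => θ * algebraMap ℂ M (c k) + aeval s (q k) / P0) F := by
      have h2 : Polynomial.aeval θ Q = (Polynomial.aeval θ : Polynomial (LL x p) →ₐ[LL x p] M).toRingHom Q := rfl
      rw [h2, hQ, eval₂_comp_left]
      congr 1
      · apply RingHom.ext
        intro a
        simp only [RingHom.comp_apply]
        change Polynomial.aeval θ (Polynomial.C (algebraMap ℂ (LL x p) a)) = _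
        rw [Polynomial.aeval_C]
        rfl
      · funext k
        simp only [Function.comp]
        change Polynomial.aeval θ (Polynomial.X * Polynomial.C (algebraMap ℂ (LL x p) (c k)) + Polynomial.C (v k)) = _
        rw [map_add, map_mul, Polynomial.aeval_X, Polynomial.aeval_C, Polynomial.aeval_C]
        rfl
    rw [h1]
    have h3 : (fun k => θ * algebraMap ℂ M (c k) + aeval s (q k) / P0) =
        fun k => (algebraMap ℂ M (c j) / P0) * g k := by
      funext k
      have := hgk k
      rw [mul_comm θ, add_comm, ← this]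
      ring
    rw [h3]
    have h4 : aeval (fun k => (algebraMap ℂ M (c j) / P0) * g k) F = _ := aeval_smul_form hF _ _
    rw [hgF, mul_zero] at h4
    exact h4
  have hint : IsIntegral (LL x p) θ := by
    have : IsAlgebraic (LL x p) θ := ⟨Q, hQ0, hQθ⟩
    exact this.isIntegral
  have hdeg : finrank (LL x p) (IntermediateField.adjoin (LL x p) {θ}) ≤ d := by
    rw [IntermediateField.adjoin.finrank hint]
    exact (Polynomial.natDegree_le_of_dvd (minpoly.dvd _ _ hQθ) hQ0).trans hQd
  haveI hfdθ : FiniteDimensional (LL x p) (IntermediateField.adjoin (LL x p) {θ}) :=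
    IntermediateField.adjoin.finiteDimensional hint
  -- the tower
  have hgb : ∃ b, g b ≠ 0 := by
    by_contra hcon
    push Not at hcon
    apply hP0
    rw [hP0def, hqs, hcon, hcon, mul_zero, mul_zero, sub_zero]
  have hle : LL x p ≤ ratioField g := by
    unfold LL
    rw [IntermediateField.adjoin_le_iff]
    rintro _ ⟨i, rfl⟩
    have h1 : ∀ k, aeval s (q k) = aeval g (C (c j) * X k - C (c k) * X j) := by
      intro k
      rw [hqs, map_sub, map_mul, map_mul, aeval_C, aeval_C, aeval_X, aeval_X]
    have h2 : ∀ k, (C (c j) * X k - C (c k) * X j : MvPolynomial (Fin (n + 2)) ℂ).IsHomogeneous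
        1 := by
      intro k
      have e1 : (C (c j) * X k : MvPolynomial (Fin (n + 2)) ℂ).IsHomogeneous (0 + 1) :=
        (isHomogeneous_C _ _).mul (isHomogeneous_X _ _)
      have e2 : (C (c k) * X j : MvPolynomial (Fin (n + 2)) ℂ).IsHomogeneous (0 + 1) :=
        (isHomogeneous_C _ _).mul (isHomogeneous_X _ _)
      exact e1.sub e2
    show PP x p i / PP x p 0 ∈ ratioField g
    rw [hPP, hPP, h1, h1]
    exact ratio_mem g hgb (h2 _) (h2 _)
  let RR : IntermediateField (LL x p) M := IntermediateField.extendScalars hle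
  have hRR : RR ≤ IntermediateField.adjoin (LL x p) {θ} := by
    have h1 : ratioField g ≤ (IntermediateField.adjoin (LL x p) {θ}).restrictScalars ℂ := by
      unfold ratioField
      rw [IntermediateField.adjoin_le_iff]
      have h2 : ∀ k, g k / P0 ∈ IntermediateField.adjoin (LL x p) {θ} := by
        intro k
        have h3 : g k / P0 = (algebraMap ℂ M (c j))⁻¹ *
            (aeval s (q k) / P0 + algebraMap ℂ M (c k) * θ) := by
          rw [← hgk, inv_mul_cancel_left₀ hcj]
        have hC : ∀ a : ℂ, algebraMap ℂ M a ∈ IntermediateField.adjoin (LL x p) {θ} := by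
          intro a
          exact (IntermediateField.adjoin (LL x p) {θ}).algebraMap_mem (algebraMap ℂ (LL x p) a)
        rw [h3]
        refine mul_mem (inv_mem (hC _)) (add_mem ?_ (mul_mem (hC _) ?_))
        · exact (IntermediateField.adjoin (LL x p) {θ}).algebraMap_mem
            (⟨aeval s (q k) / P0, hyy k⟩ : LL x p)
        · exact IntermediateField.mem_adjoin_simple_self _ _
      rintro _ ⟨i, k, rfl⟩
      have h4 : g i / g k = (g i / P0) / (g k / P0) := by
        rw [div_div_div_cancel_right₀ hP0]
      show g i / g k ∈ _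
      rw [h4]
      exact div_mem (h2 i) (h2 k)
    intro z hz
    exact h1 ((IntermediateField.mem_extendScalars hle).1 hz)
  haveI hRRfd : FiniteDimensional (LL x p) RR :=
    FiniteDimensional.of_injective (IntermediateField.inclusion hRR).toLinearMap
      (IntermediateField.inclusion_injective hRR)
  have hRRd : finrank (LL x p) RR ≤ d :=
    (LinearMap.finrank_le_finrank_of_injective (f := (IntermediateField.inclusion hRR).toLinearMap)
      (IntermediateField.inclusion_injective hRR)).trans hdeg
  haveI hfd' : FiniteDimensional RR M := hfd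
  have htow := Module.finrank_mul_finrank (LL x p) RR M
  haveI hLM : FiniteDimensional (LL x p) M := Module.Finite.trans RR M
  have hlow := lower hD hg hFx h0 hXhom hker (⊤ : IntermediateField (LL x p) M)
    (fun _ _ => IntermediateField.mem_top)
  rw [one_mul, IntermediateField.finrank_top'] at hlow
  have hfin : finrank (ratioField g) M = finrank RR M := rfl
  rw [hfin]
  calc D ^ n ≤ finrank (LL x p) M := hlow
    _ = finrank (LL x p) RR * finrank RR M := htow.symm
    _ ≤ d * finrank RR M := Nat.mul_le_mul_right _ hRRd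

end Pool.Agent.Q176.UL
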